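import Pool.Agent.V1199.DsModel
import Pool.Agent.V1199.DsBio

set_option autoImplicit false

open Filter Topology

universe u

namespace Pool.Agent.Results.MP_1b62a1_an.HereditarilyHypercyclicSums

open Pool.Agent.V1199.Ds


section Definitions

/-- The algebraic direct sum of the spaces `E n`: finitely supported families. -/
def LCSum (_𝕜 : Type) (E : ℕ → Type u) [∀ n, NormedAddCommGroup (E n)] : Type u := Π₀ n, E n

variable (𝕜 : Type) [RCLike 𝕜] (E : ℕ → Type u) [∀ n, NormedAddCommGroup (E n)]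
  [∀ n, NormedSpace 𝕜 (E n)]

instance : AddCommGroup (LCSum 𝕜 E) := inferInstanceAs (AddCommGroup (Π₀ n, E n))

instance : Module 𝕜 (LCSum 𝕜 E) := inferInstanceAs (Module 𝕜 (Π₀ n, E n))

/-- The inclusion of the `n`-th summand. -/
def incl (n : ℕ) : E n →ₗ[𝕜] LCSum 𝕜 E := DFinsupp.lsingle n

/-- The locally convex (generated by seminorms) topologies on the direct sum whose restriction
to each summand `E n` is the norm topology of `E n`. -/
def Admissible : Set (TopologicalSpace (LCSum 𝕜 E)) :=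
  {t | PolynormableSpace 𝕜 (LCSum 𝕜 E) (topology := t) ∧
    ∀ n, TopologicalSpace.induced (incl 𝕜 E n) t = (inferInstance : TopologicalSpace (E n))}

/-- The topology of the locally convex direct sum: the finest admissible topology. -/
instance : TopologicalSpace (LCSum 𝕜 E) := sInf (Admissible 𝕜 E)

end Definitions

/-- The sequence of powers of `T` is hereditarily universal: for every infinite set `B` of
exponents some vector `x` has dense orbit `{T^n x : n ∈ B}`. -/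
def HereditarilyHypercyclic {𝕜 : Type} [RCLike 𝕜] {X : Type*} [TopologicalSpace X]
    [AddCommGroup X] [Module 𝕜 X] (T : X →L[𝕜] X) : Prop :=
  ∀ B : Set ℕ, B.Infinite → ∃ x : X, Dense {y : X | ∃ n ∈ B, y = T^[n] x}


section Space

variable {𝕜 : Type} [RCLike 𝕜] {E : ℕ → Type u} [∀ n, NormedAddCommGroup (E n)]
  [∀ n, NormedSpace 𝕜 (E n)]

/-- seminorms with continuous restrictions -/
def Fam (𝕜 : Type) [RCLike 𝕜] (E : ℕ → Type u) [∀ n, NormedAddCommGroup (E n)]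
    [∀ n, NormedSpace 𝕜 (E n)] : Set (Seminorm 𝕜 (LCSum 𝕜 E)) :=
  {p | ∀ n, Continuous fun x : E n => p (incl 𝕜 E n x)}

instance : Nonempty (Fam 𝕜 E) := ⟨⟨0, fun _ => continuous_const⟩⟩

/-- the family -/
def fam (𝕜 : Type) [RCLike 𝕜] (E : ℕ → Type u) [∀ n, NormedAddCommGroup (E n)]
    [∀ n, NormedSpace 𝕜 (E n)] : SeminormFamily 𝕜 (LCSum 𝕜 E) (Fam 𝕜 E) := fun p => p.1

/-- coordinates -/
def coord (n : ℕ) : LCSum 𝕜 E →ₗ[𝕜] E n := DFinsupp.lapply n

theorem coord_incl_same (n : ℕ) (x : E n) : coord (𝕜 := 𝕜) n (incl 𝕜 E n x) = x := by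
  change (DFinsupp.single n x : Π₀ n, E n) n = x
  exact DFinsupp.single_eq_same

theorem coord_incl_ne {n m : ℕ} (h : m ≠ n) (x : E m) :
    coord (𝕜 := 𝕜) n (incl 𝕜 E m x) = 0 := by
  change (DFinsupp.single m x : Π₀ n, E n) n = 0
  exact DFinsupp.single_eq_of_ne (Ne.symm h)

theorem coordSem_mem (n : ℕ) :
    ((normSeminorm 𝕜 (E n)).comp (coord (𝕜 := 𝕜) (E := E) n)) ∈ Fam 𝕜 E := by
  intro m
  by_cases h : m = n
  · subst h
    simp only [Seminorm.comp_apply, coord_incl_same]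
    exact continuous_norm
  · simp only [Seminorm.comp_apply, coord_incl_ne h, map_zero]
    exact continuous_const

theorem gen_mem : (fam 𝕜 E).moduleFilterBasis.topology ∈ Admissible 𝕜 E := by
  let _t : TopologicalSpace (LCSum 𝕜 E) := (fam 𝕜 E).moduleFilterBasis.topology
  have hws : WithSeminorms (fam 𝕜 E) := ⟨rfl⟩
  have htg : IsTopologicalAddGroup (LCSum 𝕜 E) := hws.topologicalAddGroup
  refine ⟨hws.toPolynormableSpace, fun n => le_antisymm ?_ ?_⟩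
  · have h1 : Continuous (coord (𝕜 := 𝕜) (E := E) n) := by
      refine (norm_withSeminorms 𝕜 (E n)).continuous_of_continuous_comp _ fun _ => ?_
      exact hws.continuous_seminorm (⟨_, coordSem_mem n⟩ : Fam 𝕜 E)
    have h2 := (continuous_iff_le_induced.1 h1)
    calc TopologicalSpace.induced (incl 𝕜 E n) _t
        ≤ TopologicalSpace.induced (incl 𝕜 E n)
          (TopologicalSpace.induced (coord (𝕜 := 𝕜) (E := E) n) inferInstance) :=
          induced_mono h2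
      _ = (inferInstance : TopologicalSpace (E n)) := by
          rw [induced_compose]
          have : (coord (𝕜 := 𝕜) (E := E) n) ∘ (incl 𝕜 E n) = id := by
            funext x
            exact coord_incl_same n x
          rw [this, induced_id]
  · refine continuous_iff_le_induced.1 ?_
    exact hws.continuous_of_continuous_comp _ fun p => p.2 n

theorem top_of {X ι : Type*} [AddCommGroup X] [Module 𝕜 X] [Nonempty ι] (t : TopologicalSpace X)
    (p : SeminormFamily 𝕜 X ι) (h : WithSeminorms p) :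
    t = ⨅ i, (p i).toSeminormedAddCommGroup.toUniformSpace.toTopologicalSpace := by
  have := h.topologicalAddGroup
  exact (SeminormFamily.withSeminorms_iff_topologicalSpace_eq_iInf _).1 h

theorem gen_eq : (fam 𝕜 E).moduleFilterBasis.topology =
    ⨅ i, ((fam 𝕜 E) i).toSeminormedAddCommGroup.toUniformSpace.toTopologicalSpace := by
  let _t : TopologicalSpace (LCSum 𝕜 E) := (fam 𝕜 E).moduleFilterBasis.topology
  have hws : WithSeminorms (fam 𝕜 E) := ⟨rfl⟩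
  exact top_of _t (fam 𝕜 E) hws

theorem gen_le (t : TopologicalSpace (LCSum 𝕜 E)) (h1 : PolynormableSpace 𝕜 (LCSum 𝕜 E))
    (h2 : ∀ n, Continuous (incl 𝕜 E n)) : (fam 𝕜 E).moduleFilterBasis.topology ≤ t := by
  have hne : Nonempty {p : Seminorm 𝕜 (LCSum 𝕜 E) // Continuous p} := ⟨⟨0, continuous_const⟩⟩
  have e1 := top_of t _ h1.withSeminorms'
  rw [e1, gen_eq]
  refine le_iInf fun p => ?_
  have h3 : p.1 ∈ Fam 𝕜 E := fun n => p.2.comp (h2 n)
  exact iInf_le (fun i => ((fam 𝕜 E) i).toSeminormedAddCommGroup.toUniformSpace.toTopologicalSpace)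
    (⟨p.1, h3⟩ : Fam 𝕜 E)

theorem topology_eq : (inferInstance : TopologicalSpace (LCSum 𝕜 E)) =
    (fam 𝕜 E).moduleFilterBasis.topology := by
  refine le_antisymm (sInf_le gen_mem) (le_sInf fun t ht => ?_)
  exact @gen_le 𝕜 _ E _ _ t ht.1 fun n => continuous_iff_le_induced.2 (ht.2 n).ge

theorem hws : WithSeminorms (fam 𝕜 E) := ⟨topology_eq⟩

instance : IsTopologicalAddGroup (LCSum 𝕜 E) := hws.topologicalAddGroup

instance : ContinuousSMul 𝕜 (LCSum 𝕜 E) := hws.continuousSMul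

theorem incl_continuous (n : ℕ) : Continuous (incl 𝕜 E n) :=
  hws.continuous_of_continuous_comp _ fun p => p.2 n

theorem coord_continuous (n : ℕ) : Continuous (coord (𝕜 := 𝕜) (E := E) n) := by
  refine (norm_withSeminorms 𝕜 (E n)).continuous_of_continuous_comp _ fun _ => ?_
  exact hws.continuous_seminorm (⟨_, coordSem_mem n⟩ : Fam 𝕜 E)

/-- a linear map is continuous as soon as its restrictions are. -/
theorem continuous_of_incl (f : LCSum 𝕜 E →ₗ[𝕜] LCSum 𝕜 E)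
    (hf : ∀ n, Continuous fun x : E n => f (incl 𝕜 E n x)) : Continuous f := by
  refine hws.continuous_of_continuous_comp _ fun p => ?_
  have h : ((fam 𝕜 E p).comp f) ∈ Fam 𝕜 E := by
    intro n
    exact (hws.continuous_seminorm p).comp (hf n)
  exact hws.continuous_seminorm (⟨_, h⟩ : Fam 𝕜 E)

instance : T2Space (LCSum 𝕜 E) := by
  refine T2Space.of_injective_continuous (f := fun x : LCSum 𝕜 E => fun n => coord (𝕜 := 𝕜) n x)
    ?_ (continuous_pi fun n => coord_continuous n)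
  intro x y hxy
  exact DFinsupp.ext fun n => congrFun hxy n

end Space




section Operator

variable {𝕜 : Type} [RCLike 𝕜] {E : ℕ → Type u} [∀ n, NormedAddCommGroup (E n)]
  [∀ n, NormedSpace 𝕜 (E n)]

/-- image one level up -/
def U (e : ∀ j, ℕ → E j) (j k : ℕ) : E (j + 1) :=
  match up j k with
  | some k' => e (j + 1) k'
  | none => 0

/-- image at the same level -/
def S (e : ∀ j, ℕ → E j) (j k : ℕ) : E j :=
  match sm j k with
  | some k' => e j k'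
  | none => 0

/-- weights -/
noncomputable def wr (e : ∀ j, ℕ → E j) (f : ∀ j, ℕ → StrongDual 𝕜 (E j)) (j k : ℕ) : ℝ :=
  (1 / 2) ^ k * ((1 + ‖f j k‖) * (1 + ‖U e j k‖ + ‖S e j k‖))⁻¹

theorem wr_pos (e : ∀ j, ℕ → E j) (f : ∀ j, ℕ → StrongDual 𝕜 (E j)) (j k : ℕ) :
    0 < wr e f j k := by
  unfold wr
  positivity

/-- weights as scalars -/
noncomputable def w (e : ∀ j, ℕ → E j) (f : ∀ j, ℕ → StrongDual 𝕜 (E j)) (α : ℕ × ℕ) : 𝕜 :=
  ((wr e f α.1 α.2 : ℝ) : 𝕜)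

theorem w_ne (e : ∀ j, ℕ → E j) (f : ∀ j, ℕ → StrongDual 𝕜 (E j)) (α : ℕ × ℕ) :
    w e f α ≠ 0 := by
  unfold w
  exact_mod_cast (wr_pos e f α.1 α.2).ne'

theorem w_bound (e : ∀ j, ℕ → E j) (f : ∀ j, ℕ → StrongDual 𝕜 (E j)) (j k : ℕ) {Y : Type*}
    [NormedAddCommGroup Y] [NormedSpace 𝕜 Y] (y : Y) (hy : ‖y‖ ≤ ‖U e j k‖ + ‖S e j k‖) :
    ‖w e f (j, k) • (f j k).smulRight y‖ ≤ (1 / 2) ^ k := by
  rw [norm_smul, ContinuousLinearMap.norm_smulRight_apply]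
  unfold w
  rw [RCLike.norm_ofReal, abs_of_pos (wr_pos e f j k)]
  unfold wr
  have h1 : ‖f j k‖ * ‖y‖ ≤ (1 + ‖f j k‖) * (1 + ‖U e j k‖ + ‖S e j k‖) := by
    refine mul_le_mul (by linarith) (by linarith) (norm_nonneg _) (by positivity)
  have h2 : 0 < (1 + ‖f j k‖) * (1 + ‖U e j k‖ + ‖S e j k‖) := by positivity
  rw [mul_assoc]
  refine mul_le_of_le_one_right (by positivity) ?_
  rw [inv_mul_le_iff₀ h2, mul_one]
  exact h1

theorem exists_op (e : ∀ j, ℕ → E j) (f : ∀ j, ℕ → StrongDual 𝕜 (E j))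
    (hb : ∀ j k l, f j k (e j l) = if k = l then 1 else 0) (j : ℕ) {Y : Type*}
    [NormedAddCommGroup Y] [NormedSpace 𝕜 Y] [CompleteSpace Y] (y : ℕ → Y)
    (hy : ∀ k, ‖y k‖ ≤ ‖U e j k‖ + ‖S e j k‖) :
    ∃ C : E j →L[𝕜] Y, ∀ k, C (e j k) = w e f (j, k) • y k := by
  have hs : Summable fun k => w e f (j, k) • (f j k).smulRight (y k) := by
    refine Summable.of_norm_bounded (g := fun k : ℕ => (1 / 2 : ℝ) ^ k) ?_ fun k =>
      w_bound e f j k (y k) (hy k)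
    exact summable_geometric_of_lt_one (by norm_num) (by norm_num)
  refine ⟨∑' k, w e f (j, k) • (f j k).smulRight (y k), fun l => ?_⟩
  have h1 := (hs.hasSum).mapL (ContinuousLinearMap.apply 𝕜 Y (e j l))
  have h2 : HasSum (fun k => (ContinuousLinearMap.apply 𝕜 Y (e j l))
      (w e f (j, k) • (f j k).smulRight (y k))) (w e f (j, l) • y l) := by
    have h3 := hasSum_single (f := fun k => (ContinuousLinearMap.apply 𝕜 Y (e j l))
      (w e f (j, k) • (f j k).smulRight (y k))) l (by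
        intro k hk
        rw [map_smul, ContinuousLinearMap.apply_apply, ContinuousLinearMap.smulRight_apply, hb,
          if_neg hk, zero_smul, smul_zero])
    rwa [map_smul, ContinuousLinearMap.apply_apply, ContinuousLinearMap.smulRight_apply, hb,
      if_pos rfl, one_smul] at h3
  exact h1.unique h2

/-- the linear map from the model -/
noncomputable def Φ (𝕜 : Type) [RCLike 𝕜] {E : ℕ → Type u} [∀ n, NormedAddCommGroup (E n)]
    [∀ n, NormedSpace 𝕜 (E n)] (e : ∀ j, ℕ → E j) : (ℕ × ℕ →₀ 𝕜) →ₗ[𝕜] LCSum 𝕜 E :=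
  Finsupp.linearCombination 𝕜 (fun α => incl 𝕜 E α.1 (e α.1 α.2))

theorem Φ_single (e : ∀ j, ℕ → E j) (α : ℕ × ℕ) (c : 𝕜) :
    Φ 𝕜 e (Finsupp.single α c) = c • incl 𝕜 E α.1 (e α.1 α.2) := by
  unfold Φ
  rw [Finsupp.linearCombination_single]

theorem Φ_nx (e : ∀ j, ℕ → E j) (α : ℕ × ℕ) :
    Φ 𝕜 e (nx 𝕜 α) = incl 𝕜 E (α.1 + 1) (U e α.1 α.2) + incl 𝕜 E α.1 (S e α.1 α.2) := by
  unfold nx U S
  rw [map_add]
  congr 1
  · cases up α.1 α.2 with
    | none => simp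
    | some k' => rw [Φ_single, one_smul]
  · cases sm α.1 α.2 with
    | none => simp
    | some k' => rw [Φ_single, one_smul]

/-- the operator on the direct sum and its intertwining relation. -/
theorem exists_T [∀ n, CompleteSpace (E n)] (e : ∀ j, ℕ → E j) (f : ∀ j, ℕ → StrongDual 𝕜 (E j))
    (hb : ∀ j k l, f j k (e j l) = if k = l then 1 else 0) :
    ∃ T : LCSum 𝕜 E →L[𝕜] LCSum 𝕜 E, ∀ v, T (Φ 𝕜 e v) = Φ 𝕜 e ((1 + NF (w e f)) v) := by
  have hU : ∀ j k, ‖U e j k‖ ≤ ‖U e j k‖ + ‖S e j k‖ := fun j k => by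
    linarith [norm_nonneg (S e j k)]
  have hS : ∀ j k, ‖S e j k‖ ≤ ‖U e j k‖ + ‖S e j k‖ := fun j k => by
    linarith [norm_nonneg (U e j k)]
  choose C hC using fun j => exists_op e f hb j (U e j) (hU j)
  choose A hA using fun j => exists_op e f hb j (S e j) (hS j)
  let NX : LCSum 𝕜 E →ₗ[𝕜] LCSum 𝕜 E := DFinsupp.lsum ℕ (fun j =>
    (incl 𝕜 E (j + 1)).comp (C j : E j →ₗ[𝕜] E (j + 1)) + (incl 𝕜 E j).comp (A j : E j →ₗ[𝕜] E j))
  have hNX : ∀ j (x : E j), NX (incl 𝕜 E j x) = incl 𝕜 E (j + 1) (C j x) + incl 𝕜 E j (A j x) := by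
    intro j x
    exact DFinsupp.lsum_single (S := ℕ) _ j x
  have hcont : Continuous NX := by
    refine continuous_of_incl NX fun j => ?_
    simp only [hNX]
    exact ((incl_continuous (j + 1)).comp (C j).continuous).add
      ((incl_continuous j).comp (A j).continuous)
  have hint : ∀ v, NX (Φ 𝕜 e v) = Φ 𝕜 e (NF (w e f) v) := by
    intro v
    have h : NX.comp (Φ 𝕜 e) = (Φ 𝕜 e).comp (NF (w e f)) := by
      refine Finsupp.lhom_ext fun α c => ?_
      rw [LinearMap.comp_apply, LinearMap.comp_apply, Φ_single, NF_single, map_smul, hNX, hC, hA]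
      simp only [map_smul, Φ_nx, smul_add]
    exact LinearMap.congr_fun h v
  refine ⟨ContinuousLinearMap.id 𝕜 _ + ⟨NX, hcont⟩, fun v => ?_⟩
  rw [_root_.add_apply, ContinuousLinearMap.id_apply, LinearMap.add_apply,
    Module.End.one_apply, map_add]
  congr 1
  exact hint v

theorem T_iter (e : ∀ j, ℕ → E j) (f : ∀ j, ℕ → StrongDual 𝕜 (E j))
    (T : LCSum 𝕜 E →L[𝕜] LCSum 𝕜 E) (hT : ∀ v, T (Φ 𝕜 e v) = Φ 𝕜 e ((1 + NF (w e f)) v))
    (n : ℕ) (v : ℕ × ℕ →₀ 𝕜) : T^[n] (Φ 𝕜 e v) = Φ 𝕜 e (((1 + NF (w e f)) ^ n) v) := by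
  induction n with
  | zero => rfl
  | succ n ih =>
    rw [Function.iterate_succ_apply', ih, hT, pow_succ', Module.End.mul_apply]

/-- the level-zero coordinate -/
noncomputable def φ0 (𝕜 : Type) [RCLike 𝕜] {E : ℕ → Type u} [∀ n, NormedAddCommGroup (E n)]
    [∀ n, NormedSpace 𝕜 (E n)] (e : ∀ j, ℕ → E j) : (ℕ × ℕ →₀ 𝕜) →ₗ[𝕜] E 0 :=
  (coord (𝕜 := 𝕜) (E := E) 0).comp (Φ 𝕜 e)

theorem Φ_F0 (e : ∀ j, ℕ → E j) {v : ℕ × ℕ →₀ 𝕜} (hv : v ∈ F0 𝕜) :
    Φ 𝕜 e v = incl 𝕜 E 0 (φ0 𝕜 e v) := by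
  have h1 : Φ 𝕜 e v ∈ LinearMap.range (incl 𝕜 E 0) := by
    unfold Φ
    rw [Finsupp.linearCombination_apply]
    refine Submodule.sum_mem _ fun α hα => Submodule.smul_mem _ _ ?_
    have h2 : α.1 = 0 := hv hα
    rcases α with ⟨j, k⟩
    simp only at h2
    subst h2
    exact ⟨e 0 k, rfl⟩
  obtain ⟨x, hx⟩ := h1
  unfold φ0
  rw [LinearMap.comp_apply, ← hx, coord_incl_same]

end Operator

section Main

variable {𝕜 : Type} [RCLike 𝕜] {E : ℕ → Type u} [∀ n, NormedAddCommGroup (E n)]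
  [∀ n, NormedSpace 𝕜 (E n)]

theorem one_step (e : ∀ j, ℕ → E j) (f : ∀ j, ℕ → StrongDual 𝕜 (E j)) (B : Set ℕ)
    (hB : B.Infinite) (s u : ℕ × ℕ →₀ 𝕜) (p : ℕ) (ε : ℝ) (hε : 0 < ε) :
    ∃ (z : ℕ × ℕ →₀ 𝕜) (n : ℕ), n ∈ B ∧ p < n ∧
      (∀ m ≤ p, ((1 + NF (w e f)) ^ m) z ∈ F0 𝕜 ∧ ‖φ0 𝕜 e (((1 + NF (w e f)) ^ m) z)‖ ≤ ε) ∧
      ∃ r ∈ F0 𝕜, ‖φ0 𝕜 e r‖ ≤ ε ∧ ((1 + NF (w e f)) ^ n) (s + z) = u + r := by
  obtain ⟨z, r, hz, hr, hzF, hrF, hev⟩ := step (N := NF (w e f)) (R := RF (w e f))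
    (NF_RF _ (w_ne e f)) (F0 𝕜) (nil_all _) (lev_all _) s u p
  set q : Seminorm 𝕜 (ℕ × ℕ →₀ 𝕜) := (normSeminorm 𝕜 (E 0)).comp (φ0 𝕜 e) with hq
  have h1 : ∀ᶠ n in atTop, ∀ m ∈ Finset.range (p + 1),
      ‖φ0 𝕜 e (((1 + NF (w e f)) ^ m) (z n))‖ ≤ ε := by
    rw [Filter.eventually_all_finset]
    intro m _
    have h2 := hz (q.comp ((1 + NF (w e f)) ^ m))
    exact h2.eventually_le_const hε
  have h3 : ∀ᶠ n in atTop, ‖φ0 𝕜 e (r n)‖ ≤ ε := (hr q).eventually_le_const hε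
  have hfr : ∃ᶠ n in atTop, n ∈ B := Nat.frequently_atTop_iff_infinite.2 hB
  obtain ⟨n, hn1, ⟨hn2, hn3⟩, hn4⟩ :=
    (hfr.and_eventually (((h1.and h3).and hev).and (eventually_gt_atTop p))).exists
  exact ⟨z n, n, hn1, hn4, fun m hm => ⟨hzF m hm n, hn2.1 m (Finset.mem_range.2 (by omega))⟩,
    r n, hrF n, hn2.2, hn3⟩

theorem dense_orbit [∀ n, CompleteSpace (E n)] (e : ∀ j, ℕ → E j)
    (f : ∀ j, ℕ → StrongDual 𝕜 (E j)) (T : LCSum 𝕜 E →L[𝕜] LCSum 𝕜 E)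
    (hT : ∀ v, T (Φ 𝕜 e v) = Φ 𝕜 e ((1 + NF (w e f)) v)) (B : Set ℕ) (hB : B.Infinite)
    (u : ℕ → (ℕ × ℕ →₀ 𝕜)) :
    ∃ (x : LCSum 𝕜 E) (n : ℕ → ℕ), (∀ k, n k ∈ B) ∧
      Tendsto (fun k => T^[n k] x - Φ 𝕜 e (u k)) atTop (𝓝 0) := by
  choose z n hnB hpn hzm r hrF hr hrel using
    fun (s u : ℕ × ℕ →₀ 𝕜) (p : ℕ) (k : ℕ) => one_step e f B hB s u p ((1 / 2) ^ k) (by positivity)
  let st : ℕ → (ℕ × ℕ →₀ 𝕜) × ℕ := fun k => Nat.rec (0, 0)
    (fun k x => (x.1 + z x.1 (u k) x.2 k, n x.1 (u k) x.2 k)) k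
  set sq : ℕ → (ℕ × ℕ →₀ 𝕜) := fun k => (st k).1 with hsq
  set nq : ℕ → ℕ := fun k => (st k).2 with hnq
  set zq : ℕ → (ℕ × ℕ →₀ 𝕜) := fun k => z (sq k) (u k) (nq k) k with hzq
  set rq : ℕ → (ℕ × ℕ →₀ 𝕜) := fun k => r (sq k) (u k) (nq k) k with hrq
  have hs0 : sq 0 = 0 := rfl
  have hs1 : ∀ k, sq (k + 1) = sq k + zq k := fun k => rfl
  have hn1 : ∀ k, nq (k + 1) = n (sq k) (u k) (nq k) k := fun k => rfl
  have hnB' : ∀ k, nq (k + 1) ∈ B := fun k => hnB _ _ _ _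
  have hmono : StrictMono nq := strictMono_nat_of_lt_succ fun k => by
    rw [hn1]; exact hpn _ _ _ _
  have hzq' : ∀ k, ∀ m ≤ nq k, ((1 + NF (w e f)) ^ m) (zq k) ∈ F0 𝕜 ∧
      ‖φ0 𝕜 e (((1 + NF (w e f)) ^ m) (zq k))‖ ≤ (1 / 2) ^ k := fun k => hzm _ _ _ _
  have hrel' : ∀ k, ((1 + NF (w e f)) ^ (nq (k + 1))) (sq (k + 1)) = u k + rq k := by
    intro k
    rw [hs1, hn1]
    exact hrel _ _ _ _
  have hz0 : ∀ k, zq k ∈ F0 𝕜 ∧ ‖φ0 𝕜 e (zq k)‖ ≤ (1 / 2) ^ k := by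
    intro k
    have := hzq' k 0 (Nat.zero_le _)
    rwa [pow_zero, Module.End.one_apply] at this
  have hgeo : Summable fun k : ℕ => ((1 : ℝ) / 2) ^ k :=
    summable_geometric_of_lt_one (by norm_num) (by norm_num)
  have hsumm : Summable fun k => φ0 𝕜 e (zq k) :=
    Summable.of_norm_bounded hgeo fun k => (hz0 k).2
  set x0 : E 0 := ∑' k, φ0 𝕜 e (zq k) with hx0
  -- partial sums
  have hsum1 : ∀ L, sq L = ∑ i ∈ Finset.range L, zq i := by
    intro L
    induction L with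
    | zero => rw [hs0, Finset.sum_range_zero]
    | succ L ih => rw [hs1, ih, Finset.sum_range_succ]
  have hsF : ∀ L, sq L ∈ F0 𝕜 := by
    intro L
    rw [hsum1]
    exact Submodule.sum_mem _ fun i _ => (hz0 i).1
  set ρ : ℕ → ℕ → E 0 := fun k i => φ0 𝕜 e (((1 + NF (w e f)) ^ (nq (k + 1))) (zq (k + 1 + i)))
    with hρ
  have hρF : ∀ k i, ((1 + NF (w e f)) ^ (nq (k + 1))) (zq (k + 1 + i)) ∈ F0 𝕜 ∧
      ‖ρ k i‖ ≤ (1 / 2) ^ (k + 1 + i) := fun k i =>
    hzq' (k + 1 + i) (nq (k + 1)) (hmono.monotone (Nat.le_add_right (k + 1) i))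
  have hgeo2 : ∀ k, HasSum (fun i : ℕ => ((1 : ℝ) / 2) ^ (k + 1 + i)) ((1 / 2) ^ (k + 1) * 2) := by
    intro k
    have h := (hasSum_geometric_two).mul_left (((1 : ℝ) / 2) ^ (k + 1))
    refine h.congr_fun ?_ |>.trans ?_ <;> simp [pow_add]
  have hρs : ∀ k, Summable (ρ k) := fun k =>
    Summable.of_norm_bounded (hgeo2 k).summable fun i => (hρF k i).2
  have key : ∀ k, T^[nq (k + 1)] (incl 𝕜 E 0 x0) =
      Φ 𝕜 e (u k) + incl 𝕜 E 0 (φ0 𝕜 e (rq k) + ∑' i, ρ k i) := by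
    intro k
    have hcT : Continuous fun x : E 0 => T^[nq (k + 1)] (incl 𝕜 E 0 x) :=
      (T.continuous.iterate _).comp (incl_continuous 0)
    have h1 : Tendsto (fun L => T^[nq (k + 1)] (incl 𝕜 E 0 (φ0 𝕜 e (sq (k + 1 + L))))) atTop
        (𝓝 (T^[nq (k + 1)] (incl 𝕜 E 0 x0))) := by
      refine (hcT.tendsto x0).comp ?_
      have h2 := hsumm.hasSum.tendsto_sum_nat
      have h3 : ∀ L, φ0 𝕜 e (sq L) = ∑ i ∈ Finset.range L, φ0 𝕜 e (zq i) := by
        intro L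
        rw [hsum1, map_sum]
      simp_rw [h3]
      exact h2.comp (tendsto_add_atTop_nat (k + 1) |>.congr fun n => add_comm _ _)
    have h4 : ∀ L, T^[nq (k + 1)] (incl 𝕜 E 0 (φ0 𝕜 e (sq (k + 1 + L)))) =
        Φ 𝕜 e (u k) + incl 𝕜 E 0 (φ0 𝕜 e (rq k) + ∑ i ∈ Finset.range L, ρ k i) := by
      intro L
      rw [← Φ_F0 e (hsF _), T_iter e f T hT, hsum1, Finset.sum_range_add, ← hsum1, map_add,
        hrel', map_add, map_add, Φ_F0 e (hrF _ _ _ _), map_sum, map_sum, map_add, map_sum,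
        add_assoc]
      congr 2
      exact Finset.sum_congr rfl fun i _ => Φ_F0 e (hρF k i).1
    have h5 : Tendsto (fun L => Φ 𝕜 e (u k) + incl 𝕜 E 0 (φ0 𝕜 e (rq k) +
        ∑ i ∈ Finset.range L, ρ k i)) atTop
        (𝓝 (Φ 𝕜 e (u k) + incl 𝕜 E 0 (φ0 𝕜 e (rq k) + ∑' i, ρ k i))) := by
      refine Tendsto.const_add _ (((incl_continuous 0).tendsto _).comp ?_)
      exact Tendsto.const_add _ (hρs k).hasSum.tendsto_sum_nat
    simp_rw [h4] at h1
    exact tendsto_nhds_unique h1 h5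
  refine ⟨incl 𝕜 E 0 x0, fun k => nq (k + 1), hnB', ?_⟩
  have h6 : ∀ k, T^[nq (k + 1)] (incl 𝕜 E 0 x0) - Φ 𝕜 e (u k) =
      incl 𝕜 E 0 (φ0 𝕜 e (rq k) + ∑' i, ρ k i) := by
    intro k
    rw [key k, add_sub_cancel_left]
  simp_rw [h6]
  rw [← map_zero (incl 𝕜 E 0)]
  refine ((incl_continuous 0).tendsto _).comp ?_
  have h7 : Tendsto (fun k : ℕ => ((1 : ℝ) / 2) ^ k + (1 / 2) ^ (k + 1) * 2) atTop (𝓝 0) := by
    have h8 : Tendsto (fun k : ℕ => ((1 : ℝ) / 2) ^ k) atTop (𝓝 0) :=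
      tendsto_pow_atTop_nhds_zero_of_lt_one (by norm_num) (by norm_num)
    have h9 : Tendsto (fun k : ℕ => ((1 : ℝ) / 2) ^ (k + 1) * 2) atTop (𝓝 0) := by
      have := (h8.comp (tendsto_add_atTop_nat 1)).mul_const 2
      rwa [zero_mul] at this
    simpa using h8.add h9
  refine squeeze_zero_norm (fun k => ?_) h7
  refine (norm_add_le _ _).trans (add_le_add (hr _ _ _ _) ?_)
  exact tsum_of_norm_bounded (hgeo2 k) fun i => (hρF k i).2

end Main




section Final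

variable {𝕜 : Type} [RCLike 𝕜] {E : ℕ → Type u} [∀ n, NormedAddCommGroup (E n)]
  [∀ n, NormedSpace 𝕜 (E n)]

/-- countably many test vectors -/
noncomputable def val (𝕜 : Type) [RCLike 𝕜] (l : List (ℕ × (ℕ × ℕ))) : ℕ × ℕ →₀ 𝕜 :=
  (l.map fun t => Finsupp.single t.2 (TopologicalSpace.denseSeq 𝕜 t.1)).sum

theorem val_append (l l' : List (ℕ × (ℕ × ℕ))) : val 𝕜 (l ++ l') = val 𝕜 l + val 𝕜 l' := by
  unfold val
  rw [List.map_append, List.sum_append]

/-- the images of the test vectors -/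
noncomputable def P (𝕜 : Type) [RCLike 𝕜] {E : ℕ → Type u} [∀ n, NormedAddCommGroup (E n)]
    [∀ n, NormedSpace 𝕜 (E n)] (e : ∀ j, ℕ → E j) : AddSubmonoid (LCSum 𝕜 E) where
  carrier := Set.range fun l => Φ 𝕜 e (val 𝕜 l)
  add_mem' := by
    rintro _ _ ⟨l, rfl⟩ ⟨l', rfl⟩
    exact ⟨l ++ l', by dsimp only; rw [val_append, map_add]⟩
  zero_mem' := ⟨[], by simp [val]⟩

theorem dense_P (e : ∀ j, ℕ → E j)
    (he : ∀ j, Dense (Submodule.span 𝕜 (Set.range (e j)) : Set (E j))) :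
    Dense ((P 𝕜 e : AddSubmonoid (LCSum 𝕜 E)) : Set (LCSum 𝕜 E)) := by
  have h1 : ∀ (c : 𝕜) (j k : ℕ), c • incl 𝕜 E j (e j k) ∈ (P 𝕜 e).topologicalClosure := by
    intro c j k
    have hc : c ∈ closure (Set.range (TopologicalSpace.denseSeq 𝕜)) :=
      TopologicalSpace.denseRange_denseSeq 𝕜 c
    have hcont : Continuous fun c : 𝕜 => c • incl 𝕜 E j (e j k) :=
      continuous_id.smul continuous_const
    refine map_mem_closure (f := fun c : 𝕜 => c • incl 𝕜 E j (e j k)) hcont hc ?_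
    rintro _ ⟨m, rfl⟩
    refine ⟨[(m, (j, k))], ?_⟩
    simp only [val, List.map_cons, List.map_nil, List.sum_cons, List.sum_nil, add_zero]
    rw [Φ_single]
  have h2 : ∀ j, ∀ v : E j, incl 𝕜 E j v ∈ (P 𝕜 e).topologicalClosure := by
    intro j v
    have hcl : IsClosed {v : E j | incl 𝕜 E j v ∈ (P 𝕜 e).topologicalClosure} :=
      (AddSubmonoid.isClosed_topologicalClosure _).preimage (incl_continuous j)
    have hsub : (Submodule.span 𝕜 (Set.range (e j)) : Set (E j)) ⊆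
        {v : E j | incl 𝕜 E j v ∈ (P 𝕜 e).topologicalClosure} := by
      intro v hv
      obtain ⟨c, rfl⟩ := (Finsupp.mem_span_range_iff_exists_finsupp).1 hv
      change incl 𝕜 E j (c.sum fun i a => a • e j i) ∈ (P 𝕜 e).topologicalClosure
      rw [Finsupp.sum, map_sum]
      refine AddSubmonoid.sum_mem _ fun i _ => ?_
      rw [map_smul]
      exact h1 _ _ _
    have h3 := hcl.closure_subset_iff.2 hsub
    exact h3 (he j v)
  intro y
  change y ∈ (P 𝕜 e).topologicalClosure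
  refine DFinsupp.induction (p := fun y : Π₀ n, E n => (y : LCSum 𝕜 E) ∈ (P 𝕜 e).topologicalClosure)
    y (AddSubmonoid.zero_mem _) ?_
  intro i b g _ _ ih
  exact AddSubmonoid.add_mem _ (h2 i b) ih

/-- The topology of the direct sum is itself admissible. -/
theorem topology_admissible :
    (inferInstance : TopologicalSpace (LCSum 𝕜 E)) ∈ Admissible 𝕜 E := by
  rw [topology_eq]
  exact gen_mem

end Final

/-- Every countable locally convex direct sum of separable infinite-dimensional Banach spaces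
carries a hereditarily hypercyclic operator. -/
theorem result (𝕜 : Type) [RCLike 𝕜] (E : ℕ → Type u) [∀ n, NormedAddCommGroup (E n)]
    [∀ n, NormedSpace 𝕜 (E n)] [∀ n, CompleteSpace (E n)]
    [∀ n, TopologicalSpace.SeparableSpace (E n)] (hE : ∀ n, ¬ FiniteDimensional 𝕜 (E n)) :
    ∃ T : LCSum 𝕜 E →L[𝕜] LCSum 𝕜 E, HereditarilyHypercyclic T := by
  choose e f hb hd using fun n => Pool.Agent.V1199.DsB.exists_fundamental (𝕜 := 𝕜) (hE n)
  obtain ⟨T, hT⟩ := exists_T e f hb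
  refine ⟨T, fun B hB => ?_⟩
  obtain ⟨g, hg⟩ := exists_surjective_nat (List (ℕ × (ℕ × ℕ)))
  obtain ⟨x, n, hnB, hlim⟩ := dense_orbit e f T hT B hB fun k => val 𝕜 (g (Nat.unpair k).1)
  refine ⟨x, ?_⟩
  have h1 : ((P 𝕜 e : AddSubmonoid (LCSum 𝕜 E)) : Set (LCSum 𝕜 E)) ⊆
      closure {y | ∃ n ∈ B, y = T^[n] x} := by
    rintro _ ⟨l, rfl⟩
    obtain ⟨m, rfl⟩ := hg l
    have h2 : Tendsto (fun k => (T^[n k] x - Φ 𝕜 e (val 𝕜 (g (Nat.unpair k).1))) +
        Φ 𝕜 e (val 𝕜 (g m))) atTop (𝓝 (0 + Φ 𝕜 e (val 𝕜 (g m)))) := hlim.add_const _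
    rw [zero_add] at h2
    refine mem_closure_of_frequently_of_tendsto ?_ h2
    rw [Filter.frequently_atTop]
    intro a
    refine ⟨Nat.pair m a, Nat.right_le_pair m a, n (Nat.pair m a), hnB _, ?_⟩
    rw [Nat.unpair_pair]
    dsimp only
    abel
  intro y
  have h3 := closure_mono h1 (dense_P e hd y)
  rwa [closure_closure] at h3

end Pool.Agent.Results.MP_1b62a1_an.HereditarilyHypercyclicSums
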